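import Mathlib

namespace Pool.Agent.Results.MP_22eee4_an.Counter

/-- The greedy integer sequence: `chi 1 = 1` and, for `i > 1`,
`chi i = max over 1 ≤ j ≤ i-1 of (j+1)(i - chi j)`. (The value at `0` is never used.) -/
def chi (i : ℕ) : ℤ :=
  if h : i ≤ 1 then 1 else
    (Finset.Ico 1 i).attach.sup'
      (Finset.attach_nonempty_iff.mpr ⟨1, Finset.mem_Ico.mpr ⟨le_refl 1, by omega⟩⟩)
      (fun j => ((j.1 : ℤ) + 1) * ((i : ℤ) - chi j.1))
termination_by i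
decreasing_by exact (Finset.mem_Ico.mp j.2).2

/-- The chi inequality for the real sequence `a 1, a 2, …`. -/
def ChiIneq (a : ℕ → ℝ) : Prop :=
  ∀ i j : ℕ, 1 ≤ i → 1 ≤ j → ((j : ℝ) + 1) * (i : ℝ) ≤ ((j : ℝ) + 1) * a j + a i

theorem chi_one : chi 1 = 1 := by rw [chi]; simp

theorem chi_ge (i j : ℕ) (h1 : 1 ≤ j) (h2 : j < i) :
    ((j : ℤ) + 1) * ((i : ℤ) - chi j) ≤ chi i := by
  have h : ¬ i ≤ 1 := by omega
  conv_rhs => rw [chi]
  rw [dif_neg h]
  exact Finset.le_sup' (fun j : {x // x ∈ Finset.Ico 1 i} => ((j.1 : ℤ) + 1) * ((i : ℤ) - chi j.1))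
    (Finset.mem_attach _ ⟨j, Finset.mem_Ico.mpr ⟨h1, h2⟩⟩)

theorem chi_ex (i : ℕ) (hi : 2 ≤ i) :
    ∃ j : ℕ, 1 ≤ j ∧ j < i ∧ chi i = ((j : ℤ) + 1) * ((i : ℤ) - chi j) := by
  have h : ¬ i ≤ 1 := by omega
  obtain ⟨j, -, hj⟩ := Finset.exists_mem_eq_sup'
    (Finset.attach_nonempty_iff.mpr ⟨1, Finset.mem_Ico.mpr ⟨le_refl 1, (by omega : 1 < i)⟩⟩)
    (fun j : {x // x ∈ Finset.Ico 1 i} => ((j.1 : ℤ) + 1) * ((i : ℤ) - chi j.1))
  refine ⟨j.1, (Finset.mem_Ico.mp j.2).1, (Finset.mem_Ico.mp j.2).2, ?_⟩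
  conv_lhs => rw [chi]
  rw [dif_neg h]
  exact hj

theorem chi_ge2 (i : ℕ) (hi : 2 ≤ i) : 2 * ((i : ℤ) - 1) ≤ chi i := by
  have := chi_ge i 1 le_rfl (by omega)
  rw [chi_one] at this
  push_cast at this
  linarith

theorem chi_ge_self (i : ℕ) (hi : 1 ≤ i) : (i : ℤ) ≤ chi i := by
  rcases Nat.lt_or_ge i 2 with h | h
  · have : i = 1 := by omega
    subst this; rw [chi_one]; simp
  · have := chi_ge2 i h
    omega

theorem chi_two : chi 2 = 2 := by
  obtain ⟨j, h1, h2, h⟩ := chi_ex 2 le_rfl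
  have : j = 1 := by omega
  subst this; rw [chi_one] at h; simpa using h

theorem chi_three : chi 3 = 4 := by
  obtain ⟨j, h1, h2, h⟩ := chi_ex 3 (by norm_num)
  have h3 := chi_ge2 3 (by norm_num)
  interval_cases j
  · rw [chi_one] at h; push_cast at h; omega
  · rw [chi_two] at h; push_cast at h h3; omega

theorem chi_four : chi 4 = 6 := by
  obtain ⟨j, h1, h2, h⟩ := chi_ex 4 (by norm_num)
  have h3 := chi_ge2 4 (by norm_num)
  interval_cases j
  · rw [chi_one] at h; push_cast at h; omega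
  · rw [chi_two] at h; push_cast at h h3; omega
  · rw [chi_three] at h; push_cast at h h3; omega

theorem chi_ge3 (i : ℕ) (hi : 3 ≤ i) : 3 * ((i : ℤ) - 2) ≤ chi i := by
  have := chi_ge i 2 (by norm_num) (by omega)
  rw [chi_two] at this
  push_cast at this
  linarith

theorem chi_le_sq (i : ℕ) (hi : 1 ≤ i) : chi i ≤ (i : ℤ) * i := by
  rcases Nat.lt_or_ge i 2 with h | h
  · have : i = 1 := by omega
    subst this; rw [chi_one]; simp
  · obtain ⟨j, h1, h2, h3⟩ := chi_ex i h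
    have h4 := chi_ge_self j h1
    have h5 : (j : ℤ) + 1 ≤ i := by omega
    have h6 : (1 : ℤ) ≤ j := by omega
    rw [h3]
    nlinarith

theorem chi_cube (i : ℕ) (hi : 2 ≤ i) : (i : ℤ) ^ 3 ≤ (4 * chi i) ^ 2 := by
  set j := Nat.sqrt (i / 2) with hj
  have h1 : j * j ≤ i / 2 := Nat.sqrt_le (i / 2)
  have h2 : i / 2 < (j + 1) * (j + 1) := Nat.lt_succ_sqrt (i / 2)
  have hj1 : 1 ≤ j := by
    rw [hj, Nat.le_sqrt]; omega
  have hji : j < i := by nlinarith [Nat.div_le_self i 2, Nat.div_mul_le_self i 2]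
  have h3 := chi_ge i j hj1 hji
  have h4 := chi_le_sq j hj1
  have h5 : 2 * ((j : ℤ) * j) ≤ i := by
    have : 2 * (j * j) ≤ i := by omega
    exact_mod_cast this
  have h6 : (i : ℤ) ≤ 2 * (((j : ℤ) + 1) * ((j : ℤ) + 1)) := by
    have : i ≤ 2 * ((j + 1) * (j + 1)) := by omega
    exact_mod_cast this
  have h7 : ((j : ℤ) + 1) * i ≤ 2 * chi i := by nlinarith
  have h8 : (0 : ℤ) ≤ ((j : ℤ) + 1) * i := by positivity
  have h9 : (((j : ℤ) + 1) * i) ^ 2 ≤ (2 * chi i) ^ 2 := pow_le_pow_left₀ h8 h7 2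
  have h10 : (0 : ℤ) ≤ (i : ℤ) ^ 2 := by positivity
  nlinarith

theorem summable_chi : Summable (fun k : ℕ => 1 / (chi (k + 1) : ℝ)) := by
  have hs : Summable (fun k : ℕ => 4 * (1 / ((k : ℝ)) ^ ((3 : ℝ) / 2))) :=
    (Real.summable_one_div_nat_rpow.mpr (by norm_num)).mul_left 4
  have hs2 := (summable_nat_add_iff 2).mpr hs
  rw [← summable_nat_add_iff 1]
  refine Summable.of_nonneg_of_le (fun k => ?_) (fun k => ?_) hs2
  · have := chi_ge_self (k + 1 + 1) (by omega)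
    have h2 : (0 : ℝ) ≤ (chi (k + 1 + 1) : ℝ) := by exact_mod_cast (by omega : 0 ≤ chi (k + 1 + 1))
    positivity
  · have h0 := chi_ge_self (k + 2) (by omega)
    have h2 : (0 : ℝ) < (chi (k + 2) : ℝ) := by exact_mod_cast (by omega : 0 < chi (k + 2))
    have h3 : ((k + 2 : ℕ) : ℝ) ^ 3 ≤ (4 * (chi (k + 2) : ℝ)) ^ 2 := by
      exact_mod_cast chi_cube (k + 2) (by omega)
    have hk : (0 : ℝ) < ((k + 2 : ℕ) : ℝ) := by positivity
    have h4 : (((k + 2 : ℕ) : ℝ) ^ ((3 : ℝ) / 2)) ^ 2 = ((k + 2 : ℕ) : ℝ) ^ 3 := by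
      rw [← Real.rpow_natCast, ← Real.rpow_mul hk.le, ← Real.rpow_natCast]
      norm_num
    have h5 : ((k + 2 : ℕ) : ℝ) ^ ((3 : ℝ) / 2) ≤ 4 * (chi (k + 2) : ℝ) := by
      exact abs_le_of_sq_le_sq' (by rw [h4]; exact h3) (by linarith) |>.2
    have h6 : (0 : ℝ) < ((k + 2 : ℕ) : ℝ) ^ ((3 : ℝ) / 2) := Real.rpow_pos_of_pos hk _
    show 1 / (chi (k + 2) : ℝ) ≤ 4 * (1 / ((k + 2 : ℕ) : ℝ) ^ ((3 : ℝ) / 2))
    rw [mul_one_div, div_le_div_iff₀ h2 h6]
    linarith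

/-- The counterexample. -/
noncomputable def aa (k : ℕ) : ℝ := if k ≤ 4 then 2 * (k : ℝ) - 4 / 3 else (chi k : ℝ)

theorem aa_ge (k : ℕ) (hk : 2 ≤ k) : (chi k : ℝ) ≤ aa k := by
  unfold aa
  split_ifs with h
  · interval_cases k
    · rw [chi_two]; norm_num
    · rw [chi_three]; norm_num
    · rw [chi_four]; norm_num
  · exact le_rfl

theorem aa_ge2 (k : ℕ) : 2 * (k : ℝ) - 4 / 3 ≤ aa k := by
  unfold aa
  split_ifs with h
  · exact le_rfl
  · have h3 := chi_ge3 k (by omega)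
    have h4 : 2 * (k : ℤ) - 1 ≤ chi k := by omega
    have h5 : 2 * (k : ℝ) - 1 ≤ (chi k : ℝ) := by exact_mod_cast h4
    linarith

theorem aa_ineq : ChiIneq aa := by
  intro i j hi hj
  have hi' : (1 : ℝ) ≤ i := by exact_mod_cast hi
  have hj' : (1 : ℝ) ≤ j := by exact_mod_cast hj
  rcases Nat.lt_or_ge j 2 with h | h
  · have : j = 1 := by omega
    subst this
    have h1 : aa 1 = 2 / 3 := by unfold aa; norm_num
    have h2 := aa_ge2 i
    rw [h1]; push_cast; linarith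
  · rcases Nat.lt_or_ge j i with h2 | h2
    · have h3 : ((j : ℝ) + 1) * ((i : ℝ) - (chi j : ℝ)) ≤ (chi i : ℝ) := by
        exact_mod_cast chi_ge i j hj h2
      have h4 := aa_ge j h
      have h5 := aa_ge i (by omega)
      nlinarith
    · have h3 := aa_ge2 j
      have h4 := aa_ge2 i
      have h5 : (i : ℝ) ≤ j := by exact_mod_cast h2
      have h6 : (2 : ℝ) ≤ j := by exact_mod_cast h
      nlinarith

theorem result : ∃ a : ℕ → ℝ, ChiIneq a ∧
    Summable (fun k : ℕ => 1 / a (k + 1)) ∧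
    Summable (fun k : ℕ => 1 / (chi (k + 1) : ℝ)) ∧
    ∑' k : ℕ, 1 / (chi (k + 1) : ℝ) < ∑' k : ℕ, 1 / a (k + 1) := by
  have e : (fun k : ℕ => 1 / aa (k + 4 + 1)) = fun k : ℕ => 1 / (chi (k + 4 + 1) : ℝ) := by
    funext k
    unfold aa
    rw [if_neg (by omega)]
  have hs : Summable (fun k : ℕ => 1 / aa (k + 1)) := by
    rw [← summable_nat_add_iff 4, e]
    exact (summable_nat_add_iff 4).mpr summable_chi
  refine ⟨aa, aa_ineq, hs, summable_chi, ?_⟩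
  rw [← hs.sum_add_tsum_nat_add 4, ← summable_chi.sum_add_tsum_nat_add 4, e]
  have : ∑ k ∈ Finset.range 4, 1 / (chi (k + 1) : ℝ) < ∑ k ∈ Finset.range 4, 1 / aa (k + 1) := by
    simp only [Finset.sum_range_succ, Finset.sum_range_zero]
    norm_num [aa, chi_one, chi_two, chi_three, chi_four]
  linarith

end Pool.Agent.Results.MP_22eee4_an.Counter
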